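import Mathlib

/-!
# [D4] the convexity inequality  (helper18)

`(ρ + d - 1).choose d / ρ = (ρ + d - 1).choose (d - 1) / d` is convex in `ρ`, so that
`ρ (r - ρ) + ∑ (ρ + d - 1).choose d ≤ m ρ` for `1 ≤ ρ ≤ r` follows from the endpoints
`ρ = 1` and `ρ = r`.
-/

namespace Pool.Agent.Work.PDM

theorem diff_lower (Q D : ℕ → ℕ) (hQ : ∀ n, Q (n + 1) = Q n + D n) (hD : Monotone D) (a k : ℕ) :
    Q a + k * D a ≤ Q (a + k) := by
  induction k with
  | zero => simp
  | succ k ih =>
    have h1 := hQ (a + k)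
    have h2 := hD (show a ≤ a + k by omega)
    rw [show a + (k + 1) = a + k + 1 by ring, h1, Nat.succ_mul]
    omega

theorem diff_upper (Q D : ℕ → ℕ) (hQ : ∀ n, Q (n + 1) = Q n + D n) (hD : Monotone D) (a k : ℕ) :
    Q (a + k) ≤ Q a + k * D (a + k) := by
  induction k with
  | zero => simp
  | succ k ih =>
    have h1 := hQ (a + k)
    have h2 := hD (show a + k ≤ a + k + 1 by omega)
    have h3 : (k + 1) * D (a + k) ≤ (k + 1) * D (a + k + 1) := Nat.mul_le_mul_left _ h2
    rw [show a + (k + 1) = a + k + 1 by ring, h1]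
    rw [Nat.succ_mul] at h3
    omega

theorem conv_of_diff (Q D : ℕ → ℕ) (hQ : ∀ n, Q (n + 1) = Q n + D n) (hD : Monotone D)
    (a b : ℕ) : (a + b) * Q (1 + a) ≤ b * Q 1 + a * Q (1 + a + b) := by
  have h1 := Nat.mul_le_mul_left a (diff_lower Q D hQ hD (1 + a) b)
  have h2 := Nat.mul_le_mul_left b (diff_upper Q D hQ hD 1 a)
  nlinarith

theorem choose_conv (d a b : ℕ) :
    (a + b) * (1 + a + d).choose d ≤ b * (1 + d).choose d + a * (1 + a + b + d).choose d := by
  rcases d with _ | d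
  · simp only [Nat.choose_zero_right]
    omega
  · refine conv_of_diff (fun n => (n + (d + 1)).choose (d + 1)) (fun n => (n + (d + 1)).choose d)
      ?_ ?_ a b
    · intro n
      have h := Nat.choose_succ_succ (n + (d + 1)) d
      show (n + 1 + (d + 1)).choose (d + 1) = (n + (d + 1)).choose (d + 1) + (n + (d + 1)).choose d
      rw [show n + 1 + (d + 1) = (n + (d + 1)).succ by omega, h]
      ring
    · intro n n' hn
      exact Nat.choose_le_choose d (by omega)

theorem choose_mul (d ρ : ℕ) : (ρ + (d + 1) - 1).choose (d + 1) * (d + 1) =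
    (ρ + d).choose d * ρ := by
  have h := Nat.choose_succ_right_eq (ρ + d) d
  rw [show ρ + d - d = ρ by omega] at h
  rw [show ρ + (d + 1) - 1 = ρ + d by omega]
  exact h

/-- convexity of one summand -/
theorem one_conv (d : ℕ) (hd : 1 ≤ d) (a b : ℕ) :
    (1 + a + b) * ((a + b) * (1 + a + d - 1).choose d) ≤
      (1 + a) * ((1 + a + b) * b + a * (1 + a + b + d - 1).choose d) := by
  obtain ⟨e, rfl⟩ : ∃ e, d = e + 1 := ⟨d - 1, by omega⟩
  have h0 := choose_mul e 1
  have h1 := choose_mul e (1 + a)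
  have h2 := choose_mul e (1 + a + b)
  have h3 := choose_conv e a b
  have h4 : (1 + e).choose e = e + 1 := by
    rw [Nat.add_comm 1 e]
    exact Nat.choose_succ_self_right e
  rw [h4] at h3
  refine Nat.le_of_mul_le_mul_right (c := e + 1) ?_ (by omega)
  calc (1 + a + b) * ((a + b) * (1 + a + (e + 1) - 1).choose (e + 1)) * (e + 1)
      = (1 + a + b) * (a + b) * ((1 + a + (e + 1) - 1).choose (e + 1) * (e + 1)) := by ring
    _ = (1 + a + b) * (1 + a) * ((a + b) * (1 + a + e).choose e) := by rw [h1]; ring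
    _ ≤ (1 + a + b) * (1 + a) * (b * (e + 1) + a * (1 + a + b + e).choose e) :=
        Nat.mul_le_mul_left _ h3
    _ = (1 + a) * ((1 + a + b) * b * (e + 1) +
          a * ((1 + a + b + e).choose e * (1 + a + b))) := by ring
    _ = (1 + a) * ((1 + a + b) * b * (e + 1) +
          a * ((1 + a + b + (e + 1) - 1).choose (e + 1) * (e + 1))) := by rw [h2]
    _ = _ := by ring

/-- [D4] -/
theorem convex_bound {ι : Type*} [Fintype ι] (d : ι → ℕ) (hd : ∀ i, 1 ≤ d i) (r m : ℕ)
    (h1 : r + Fintype.card ι ≤ m + 1) (h2 : ∑ i, (r + d i - 1).choose (d i) ≤ r * m) (ρ : ℕ)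
    (hρ : 1 ≤ ρ) (hρr : ρ ≤ r) :
    ρ * (r - ρ) + ∑ i, (ρ + d i - 1).choose (d i) ≤ m * ρ := by
  obtain ⟨a, rfl⟩ : ∃ a, ρ = 1 + a := ⟨ρ - 1, by omega⟩
  obtain ⟨b, rfl⟩ : ∃ b, r = 1 + a + b := ⟨r - (1 + a), by omega⟩
  rw [show 1 + a + b - (1 + a) = b by omega]
  rcases Nat.eq_zero_or_pos (a + b) with h0 | h0
  · obtain ⟨rfl, rfl⟩ : a = 0 ∧ b = 0 := by omega
    simp only [Nat.mul_zero, Nat.add_zero, Nat.zero_add, Nat.mul_one, Nat.one_mul] at h2 ⊢
    exact h2
  · have h3 := Finset.sum_le_sum fun i (_ : i ∈ Finset.univ) => one_conv (d i) (hd i) a b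
    rw [← Finset.mul_sum, ← Finset.mul_sum, ← Finset.mul_sum, Finset.sum_add_distrib,
      Finset.sum_const, Finset.card_univ, ← Finset.mul_sum, smul_eq_mul] at h3
    set S := ∑ i, (1 + a + d i - 1).choose (d i) with hS
    set T := ∑ i, (1 + a + b + d i - 1).choose (d i) with hT
    set N := Fintype.card ι with hN
    -- divide by `1 + a + b`
    have h4 : (a + b) * S ≤ (1 + a) * (N * b + a * m) := by
      refine Nat.le_of_mul_le_mul_left (c := 1 + a + b) ?_ (by omega)
      calc (1 + a + b) * ((a + b) * S) ≤ (1 + a) * (N * ((1 + a + b) * b) + a * T) := h3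
        _ ≤ (1 + a) * (N * ((1 + a + b) * b) + a * ((1 + a + b) * m)) := by gcongr
        _ = _ := by ring
    have h5 : a + b + N ≤ m := by omega
    refine Nat.le_of_mul_le_mul_left (c := a + b) ?_ h0
    calc (a + b) * ((1 + a) * b + S) = (a + b) * ((1 + a) * b) + (a + b) * S := by ring
      _ ≤ (a + b) * ((1 + a) * b) + (1 + a) * (N * b + a * m) := by omega
      _ = (1 + a) * (b * (a + b + N) + a * m) := by ring
      _ ≤ (1 + a) * (b * m + a * m) := by gcongr
      _ = (a + b) * (m * (1 + a)) := by ring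

end Pool.Agent.Work.PDM
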