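import Mathlib

/-!
The system of forms behind the sharp existence theorem for linear spaces in complete
intersections (Debarre and Manivel).
-/

namespace Pool.Agent.Work.PDM

open MvPolynomial

/-- a system of `m` vectors of forms of degrees `d i - 1` in `r` variables whose multiples by linear
forms are all vectors of forms of degrees `d i` -/
def Peel (E : Type*) [Field E] {ι : Type*} (d : ι → ℕ) (r m : ℕ) : Prop :=
  ∃ g : ι → Fin m → MvPolynomial (Fin r) E, (∀ i j, (g i j).IsHomogeneous (d i - 1)) ∧
    ∀ h : ι → MvPolynomial (Fin r) E, (∀ i, (h i).IsHomogeneous (d i)) →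
      ∃ A : Fin m → Fin r → E, ∀ i, ∑ j, (∑ l, C (A j l) * X l) * g i j = h i

end Pool.Agent.Work.PDM
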