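import Mathlib
import Pool.Agent.Work.MP_b62148_ag.DM.DefsD
import Pool.Agent.Work.MP_b62148_ag.Polar
import Pool.Agent.Work.MP_b62148_ag.Quintic.FixQ
import Pool.Agent.Work.MP_b62148_ag.Quintic.ExistP3Sharp

/-!
Existence of a linear space on every intersection of hypersurfaces of given degrees, from a system
of forms with the peeling property: the deformation and the reduction.
-/

namespace Pool.Agent.Work.PDM

open MvPolynomial

section Deform

set_option linter.unusedSectionVars false

variable {σ : Type*} [Fintype σ]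
variable {E : Type*} [Field E] {J : Type*} [Fintype J] {ι : Type*} [Fintype ι] {r : ℕ}

/-- the vectors of the graph of `A` -/
noncomputable def uvecA (b : Fin r ⊕ J → σ → E) {R : Type*} [CommRing R] [Algebra E R]
    (A : J → Fin r → R) (i : Fin r) : σ → R := fun t =>
  algebraMap E R (b (Sum.inl i) t) + ∑ j, A j i * algebraMap E R (b (Sum.inr j) t)

/-- the universal vector on the graph of `A` -/
noncomputable def svecA (b : Fin r ⊕ J → σ → E) {R : Type*} [CommRing R] [Algebra E R]
    (A : J → Fin r → R) : σ → MvPolynomial (Fin r) R := fun t =>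
  ∑ i, X i * C (uvecA b A i t)

/-- the restriction of a form to the graph -/
noncomputable def PAA (G : MvPolynomial σ E) (b : Fin r ⊕ J → σ → E) {R : Type*} [CommRing R]
    [Algebra E R] (A : J → Fin r → R) : MvPolynomial (Fin r) R :=
  aeval (svecA b A) G

theorem svecA_homog (b : Fin r ⊕ J → σ → E) {R : Type*} [CommRing R] [Algebra E R]
    (A : J → Fin r → R) (t : σ) : (svecA b A t).IsHomogeneous 1 := by
  unfold svecA
  refine IsHomogeneous.sum _ _ _ fun i _ => ?_
  exact (isHomogeneous_X R i).mul (isHomogeneous_C _ _)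

theorem PAA_homog (G : MvPolynomial σ E) {d : ℕ} (hG : G.IsHomogeneous d)
    (b : Fin r ⊕ J → σ → E) {R : Type*} [CommRing R] [Algebra E R]
    (A : J → Fin r → R) : (PAA G b A).IsHomogeneous d := by
  have h : (PAA G b A).IsHomogeneous (1 * d) := by
    unfold PAA
    have : (algebraMap E (MvPolynomial (Fin r) R)) = (C : R →+* _).comp (algebraMap E R) := by
      rfl
    rw [aeval_def]
    refine hG.eval₂ _ _ (fun x => ?_) (svecA_homog b A)
    rw [this]
    exact isHomogeneous_C _ _
  rwa [one_mul] at h

theorem uvecA_map (b : Fin r ⊕ J → σ → E) {R S : Type*} [CommRing R] [Algebra E R] [CommRing S]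
    [Algebra E S] (g : R →ₐ[E] S) (A : J → Fin r → R) (i : Fin r) (t : σ) :
    g (uvecA b A i t) = uvecA b (fun j i => g (A j i)) i t := by
  unfold uvecA
  rw [map_add, AlgHom.commutes]
  congr 1
  simp [map_sum, map_mul, AlgHom.commutes]

theorem PAA_map (G : MvPolynomial σ E) (b : Fin r ⊕ J → σ → E) {R S : Type*} [CommRing R]
    [Algebra E R] [CommRing S] [Algebra E S] (g : R →ₐ[E] S) (A : J → Fin r → R) :
    map (g : R →+* S) (PAA G b A) = PAA G b (fun j i => g (A j i)) := by
  have h := comp_aeval_apply (svecA b A) (mapAlgHom (σ := Fin r) g) G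
  have hs : (fun t => mapAlgHom (σ := Fin r) g (svecA b A t)) =
      svecA b (fun j i => g (A j i)) := by
    funext t
    unfold svecA
    rw [map_sum]
    refine Finset.sum_congr rfl fun i _ => ?_
    rw [map_mul, ← uvecA_map]
    simp [mapAlgHom_apply]
  rw [hs] at h
  exact h

theorem peel_sumA {R : Type*} [CommRing R] [Algebra E R] (P : ι → MvPolynomial (Fin r) R)
    (g : ι → J → MvPolynomial (Fin r) E) (S : (Σ _ : ι, (Fin r →₀ ℕ)) → J → Fin r → E)
    (I : Finset (Σ _ : ι, (Fin r →₀ ℕ)))
    (hI : I = Finset.univ.sigma fun i => (P i).support) [DecidableEq ι]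
    (hS : ∀ q ∈ I, ∀ i, ∑ j, (∑ l, C (S q j l) * X l) * g i j =
      if i = q.1 then monomial q.2 1 else 0) (i : ι) :
    P i + ∑ j, (∑ l : Fin r,
        C (- ∑ q ∈ I, coeff q.2 (P q.1) * algebraMap E R (S q j l)) * X l) *
      map (algebraMap E R) (g i j) = 0 := by
  have h1 : P i = ∑ q ∈ I, C (coeff q.2 (P q.1)) *
      map (algebraMap E R) (∑ j, (∑ l, C (S q j l) * X l) * g i j) := by
    have h2 : ∀ q ∈ I, C (coeff q.2 (P q.1)) *
        map (algebraMap E R) (∑ j, (∑ l, C (S q j l) * X l) * g i j) =
        if i = q.1 then monomial q.2 (coeff q.2 (P q.1)) else 0 := by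
      intro q hq
      rw [hS q hq i]
      split_ifs with h
      · rw [map_monomial, map_one, C_mul_monomial, mul_one]
      · rw [map_zero, mul_zero]
    rw [Finset.sum_congr rfl h2, hI, Finset.sum_sigma, Finset.sum_eq_single i]
    · simp only [if_true]
      exact (P i).as_sum
    · intro i' _ hi'
      exact Finset.sum_eq_zero fun d _ => if_neg (Ne.symm hi')
    · intro h; exact absurd (Finset.mem_univ _) h
  let f : (Σ _ : ι, (Fin r →₀ ℕ)) → J → Fin r → MvPolynomial (Fin r) R := fun q j l =>
    C (coeff q.2 (P q.1)) * C (algebraMap E R (S q j l)) * X l * map (algebraMap E R) (g i j)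
  have hL : ∀ j, (∑ l : Fin r, C (- ∑ q ∈ I, coeff q.2 (P q.1) * algebraMap E R (S q j l)) *
      X l) * map (algebraMap E R) (g i j) = - ∑ l, ∑ q ∈ I, f q j l := by
    intro j
    rw [Finset.sum_mul, ← Finset.sum_neg_distrib]
    refine Finset.sum_congr rfl fun l _ => ?_
    rw [map_neg, neg_mul, neg_mul, map_sum, Finset.sum_mul, Finset.sum_mul]
    refine congrArg Neg.neg (Finset.sum_congr rfl fun d _ => ?_)
    rw [map_mul]
  have hR : ∀ q, C (coeff q.2 (P q.1)) *
      map (algebraMap E R) (∑ j, (∑ l, C (S q j l) * X l) * g i j) = ∑ j, ∑ l, f q j l := by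
    intro d
    rw [map_sum, Finset.mul_sum]
    refine Finset.sum_congr rfl fun j _ => ?_
    rw [map_mul, map_sum, Finset.sum_mul, Finset.mul_sum]
    refine Finset.sum_congr rfl fun l _ => ?_
    rw [map_mul, map_C, map_X]
    simp only [f]
    ring
  have h2 : ∑ j, (∑ l : Fin r, C (- ∑ q ∈ I, coeff q.2 (P q.1) * algebraMap E R (S q j l)) *
      X l) * map (algebraMap E R) (g i j) =
      - ∑ q ∈ I, C (coeff q.2 (P q.1)) *
      map (algebraMap E R) (∑ j, (∑ l, C (S q j l) * X l) * g i j) := by
    rw [Finset.sum_congr rfl fun j _ => hL j, Finset.sum_congr rfl fun d _ => hR d,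
      Finset.sum_neg_distrib]
    congr 1
    rw [Finset.sum_congr rfl fun j _ => Finset.sum_comm, Finset.sum_comm]
  rw [h2, ← h1]
  ring

theorem push_sumA {R S : Type*} [CommRing R] [Algebra E R] [CommRing S] [Algebra E S]
    (φ : R →ₐ[E] S) (g : J → MvPolynomial (Fin r) E) (H : J → Fin r → R) (x : S) :
    C x * map (φ : R →+* S) (∑ j, (∑ i : Fin r, C (H j i) * X i) * map (algebraMap E R) (g j)) =
      ∑ j, (∑ i : Fin r, C (x * φ (H j i)) * X i) * map (algebraMap E S) (g j) := by
  rw [map_sum, Finset.mul_sum]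
  refine Finset.sum_congr rfl fun j _ => ?_
  have e1 : map (φ : R →+* S) (map (algebraMap E R) (g j)) = map (algebraMap E S) (g j) := by
    rw [map_map, AlgHom.comp_algebraMap]
  rw [map_mul, e1, ← mul_assoc]
  congr 1
  rw [map_sum, Finset.mul_sum]
  refine Finset.sum_congr rfl fun i _ => ?_
  rw [map_mul, map_C, map_X, map_mul, mul_assoc]
  rfl

/-- the deformation: over the power series the forms `X * G i + Σ x_j g_ij` vanish on a graph -/
theorem exists_graphA (d : ι → ℕ) (G : ι → MvPolynomial σ E)
    (hG : ∀ i, (G i).IsHomogeneous (d i)) (b : Fin r ⊕ J → σ → E)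
    (g : ι → J → MvPolynomial (Fin r) E)
    (hpeel : ∀ h : ι → MvPolynomial (Fin r) E, (∀ i, (h i).IsHomogeneous (d i)) →
      ∃ A : J → Fin r → E, ∀ i, ∑ j, (∑ l, C (A j l) * X l) * g i j = h i) :
    ∃ A : J → Fin r → PowerSeries E, ∀ i,
      C PowerSeries.X * PAA (G i) b A +
        ∑ j, (∑ l : Fin r, C (A j l) * X l) *
          map (algebraMap E (PowerSeries E)) (g i j) = 0 := by
  classical
  obtain ⟨A₀, hA₀⟩ : ∃ A₀ : J → Fin r → MvPolynomial (J × Fin r) E, A₀ = fun j i => X (j, i) :=
    ⟨_, rfl⟩
  obtain ⟨P, hP⟩ : ∃ P : ι → MvPolynomial (Fin r) (MvPolynomial (J × Fin r) E),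
      ∀ i, P i = PAA (G i) b A₀ := ⟨_, fun _ => rfl⟩
  obtain ⟨I, hI⟩ : ∃ I : Finset (Σ _ : ι, (Fin r →₀ ℕ)),
    I = Finset.univ.sigma fun i => (P i).support := ⟨_, rfl⟩
  have hS : ∀ q : (Σ _ : ι, (Fin r →₀ ℕ)), ∃ A : J → Fin r → E, (q ∈ I →
      ∀ i, ∑ j, (∑ l, C (A j l) * X l) * g i j = if i = q.1 then monomial q.2 1 else 0) := by
    intro q
    by_cases hq : q ∈ I
    · rw [hI, Finset.mem_sigma] at hq
      have hq2 := hq.2
      rw [hP] at hq2
      obtain ⟨A, hA⟩ := hpeel (fun i => if i = q.1 then monomial q.2 1 else 0) (by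
        intro i
        split_ifs with h
        · have h1 := (PAA_homog (G q.1) (hG q.1) b A₀) (mem_support_iff.mp hq2)
          rw [h]
          refine isHomogeneous_monomial _ ?_
          rw [Finsupp.degree_eq_weight_one]
          exact h1
        · exact isHomogeneous_zero _ _ _)
      exact ⟨A, fun _ => hA⟩
    · exact ⟨fun _ _ => 0, fun h => absurd h hq⟩
  choose S hS using hS
  have hmain := fun i => peel_sumA P g S I hI hS i
  obtain ⟨H, hH⟩ : ∃ H : J → Fin r → MvPolynomial (J × Fin r) E, ∀ j l,
    H j l = - ∑ q ∈ I, coeff q.2 (P q.1) * algebraMap E _ (S q j l) := ⟨_, fun _ _ => rfl⟩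
  simp only [← hH] at hmain
  obtain ⟨a, ha⟩ := PD5.exists_fixed fun p : J × Fin r => H p.1 p.2
  refine ⟨fun j i => a (j, i), fun i => ?_⟩
  obtain ⟨φ, hφ⟩ : ∃ φ : MvPolynomial (J × Fin r) E →ₐ[E] PowerSeries E, φ = aeval a := ⟨_, rfl⟩
  have h4 := push_sumA φ (g i) H PowerSeries.X
  have h5 : map (φ : MvPolynomial (J × Fin r) E →+* PowerSeries E) (P i) =
      PAA (G i) b fun j i => a (j, i) := by
    have := PAA_map (G i) b φ A₀
    rw [hP, this]
    congr 1
    funext j i
    rw [hφ, hA₀, aeval_X]
  have h6 : ∀ j i, PowerSeries.X * φ (H j i) = a (j, i) := by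
    intro j i
    rw [hφ]
    exact (ha (j, i)).symm
  simp only [h6] at h4
  rw [← h4, ← h5, ← mul_add, ← map_add, hmain, map_zero, mul_zero]

/-- a vector in the coordinates of the basis -/
def bvec (b : Fin r ⊕ J → σ → E) {R : Type*} [CommRing R] [Algebra E R] (c : Fin r ⊕ J → R) :
    σ → R := fun t => ∑ u, c u * algebraMap E R (b u t)

theorem bvec_map (b : Fin r ⊕ J → σ → E) {R S : Type*} [CommRing R] [Algebra E R] [CommRing S]
    [Algebra E S] (g : R →ₐ[E] S) (c : Fin r ⊕ J → R) (t : σ) :
    g (bvec b c t) = bvec b (fun u => g (c u)) t := by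
  unfold bvec
  rw [map_sum]
  refine Finset.sum_congr rfl fun u _ => ?_
  rw [map_mul, AlgHom.commutes]

/-- the coordinates of the points of the graph -/
def graphA {R : Type*} [CommRing R] (A : J → Fin r → R) (s : Fin r → R) : Fin r ⊕ J → R :=
  Sum.elim s fun j => ∑ i : Fin r, A j i * s i

theorem uvecA_sum (b : Fin r ⊕ J → σ → E) {R : Type*} [CommRing R] [Algebra E R]
    (A : J → Fin r → R) (s : Fin r → R) (t : σ) :
    ∑ i, s i * uvecA b A i t = bvec b (graphA A s) t := by
  unfold uvecA bvec graphA
  rw [Fintype.sum_sum_type]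
  simp only [Sum.elim_inl, Sum.elim_inr, mul_add, Finset.sum_add_distrib]
  congr 1
  simp only [Finset.mul_sum, Finset.sum_mul]
  rw [Finset.sum_comm]
  refine Finset.sum_congr rfl fun j _ => Finset.sum_congr rfl fun i _ => ?_
  ring

/-- evaluation of the restriction -/
theorem eval_PAA (G : MvPolynomial σ E) (b : Fin r ⊕ J → σ → E) {R : Type*} [CommRing R]
    [Algebra E R] (A : J → Fin r → R) (s : Fin r → R) :
    eval s (PAA G b A) = aeval (bvec b (graphA A s)) G := by
  have h := comp_aeval_apply (svecA b A)
    ((aeval s : MvPolynomial (Fin r) R →ₐ[R] R).restrictScalars E) G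
  have hs : (fun t => ((aeval s : MvPolynomial (Fin r) R →ₐ[R] R).restrictScalars E)
      (svecA b A t)) = bvec b (graphA A s) := by
    funext t
    rw [← uvecA_sum]
    show aeval s (svecA b A t) = _
    unfold svecA
    rw [map_sum]
    refine Finset.sum_congr rfl fun i _ => ?_
    rw [map_mul, aeval_X, ← MvPolynomial.algebraMap_eq, AlgHom.commutes]
    rfl
  rw [hs] at h
  rw [← h]
  rfl

/-- over the fraction field of the power series -/
theorem exists_graph_fieldA (d : ι → ℕ) (G : ι → MvPolynomial σ E)
    (hG : ∀ i, (G i).IsHomogeneous (d i)) (b : Fin r ⊕ J → σ → E)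
    (g : ι → J → MvPolynomial (Fin r) E)
    (hpeel : ∀ h : ι → MvPolynomial (Fin r) E, (∀ i, (h i).IsHomogeneous (d i)) →
      ∃ A : J → Fin r → E, ∀ i, ∑ j, (∑ l, C (A j l) * X l) * g i j = h i) :
    ∃ (τ : FractionRing (PowerSeries E)) (A : J → Fin r → FractionRing (PowerSeries E)),
      (∀ e : E, algebraMap E (FractionRing (PowerSeries E)) e ≠ τ) ∧
      ∀ i, ∀ s : Fin r → FractionRing (PowerSeries E),
        τ * aeval (bvec b (graphA A s)) (G i) +
        ∑ j, graphA A s (Sum.inr j) * aeval (fun l => graphA A s (Sum.inl l)) (g i j) = 0 := by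
  obtain ⟨A, hA⟩ := exists_graphA d G hG b g hpeel
  let φ : PowerSeries E →ₐ[E] FractionRing (PowerSeries E) :=
    IsScalarTower.toAlgHom E (PowerSeries E) (FractionRing (PowerSeries E))
  have hφ : Function.Injective φ := IsFractionRing.injective (PowerSeries E) _
  refine ⟨φ PowerSeries.X, fun j i => φ (A j i), ?_, ?_⟩
  · intro e he
    have h1 : φ (algebraMap E (PowerSeries E) e) = φ PowerSeries.X := by
      rw [AlgHom.commutes]; exact he
    have h2 := hφ h1
    have h3 := congrArg (PowerSeries.coeff 1) h2
    rw [PowerSeries.coeff_one_X] at h3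
    have h4 : PowerSeries.coeff 1 (algebraMap E (PowerSeries E) e) = 0 := by
      rw [PowerSeries.algebraMap_apply]
      simp
    rw [h4] at h3
    exact zero_ne_one h3
  · intro i s
    have h1 := congrArg (fun q => eval s (map (φ : PowerSeries E →+* _) q)) (hA i)
    simp only [map_add, map_mul, map_zero, map_sum, map_C, map_X, eval_C, eval_X] at h1
    rw [PAA_map (G i) b φ A, eval_PAA] at h1
    refine Eq.trans ?_ h1
    congr 1
    refine Finset.sum_congr rfl fun j _ => ?_
    congr 1
    have e1 : map (φ : PowerSeries E →+* FractionRing (PowerSeries E))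
        (map (algebraMap E (PowerSeries E)) (g i j)) =
        map (algebraMap E (FractionRing (PowerSeries E))) (g i j) := by
      rw [map_map, AlgHom.comp_algebraMap]
    rw [e1, eval_map, aeval_def]
    rfl

universe v

/-- reduction along a valuation ring -/
theorem exists_residueA [IsAlgClosed E] (G : ι → MvPolynomial σ E) (b : Fin r ⊕ J → σ → E)
    (g : ι → J → MvPolynomial (Fin r) E)
    {K : Type v} [Field K] [Algebra E K] (τ : K) (hτ : ∀ e : E, algebraMap E K e ≠ τ)
    (A : J → Fin r → K)
    (hA : ∀ i, ∀ s : Fin r → K,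
        τ * aeval (bvec b (graphA A s)) (G i) +
        ∑ j, graphA A s (Sum.inr j) * aeval (fun l => graphA A s (Sum.inl l)) (g i j) = 0) :
    ∃ (κ : Type v) (_ : Field κ) (_ : Algebra E κ) (c : Fin r → (Fin r ⊕ J) → κ),
      LinearIndependent κ c ∧
      ∀ i, ∀ x : Fin r → κ, aeval (bvec b (∑ l, x l • c l)) (G i) = 0 := by
  classical
  obtain ⟨V, hEV, hτV⟩ := PD.exists_valuationSubring τ hτ
  let _ : Algebra E V := ((algebraMap E K).codRestrict V.toSubring hEV).toAlgebra
  have htower : IsScalarTower E V K := IsScalarTower.of_algebraMap_eq fun e => rfl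
  let φ : V →ₐ[E] K := IsScalarTower.toAlgHom E V K
  have hφ : ∀ v : V, φ v = (v : K) := fun _ => rfl
  let ρ : V →ₐ[E] IsLocalRing.ResidueField V :=
    IsScalarTower.toAlgHom E V (IsLocalRing.ResidueField V)
  have hρ : ∀ v : V, ρ v = IsLocalRing.residue V v := fun _ => rfl
  -- the graph as a subspace
  let L : (Fin r → K) →ₗ[K] (Fin r ⊕ J → K) :=
    { toFun := graphA A
      map_add' := by
        intro x y
        funext u
        rcases u with u | j
        · rfl
        · simp only [graphA, Sum.elim_inr, Pi.add_apply, mul_add, Finset.sum_add_distrib]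
      map_smul' := by
        intro r x
        funext u
        rcases u with u | j
        · rfl
        · simp only [graphA, Sum.elim_inr, Pi.smul_apply, smul_eq_mul, Finset.mul_sum,
            RingHom.id_apply]
          exact Finset.sum_congr rfl fun i _ => by ring }
  have hL : ∀ s, L s = graphA A s := fun _ => rfl
  let w : Fin r → Fin r ⊕ J → K := fun i => L (Pi.single i 1)
  have hw : LinearIndependent K w := by
    rw [Fintype.linearIndependent_iff]
    intro x hx i
    have h1 := congrFun hx (Sum.inl i)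
    rw [Finset.sum_apply, Finset.sum_eq_single i] at h1
    · simpa [w, hL, graphA] using h1
    · intro j _ hj
      simp [w, hL, graphA, Pi.single_eq_of_ne (Ne.symm hj)]
    · intro h; exact absurd (Finset.mem_univ _) h
  obtain ⟨cV, hc'1, hc'2⟩ := PD5.exists_reduced V r w hw
  have hcV : ∀ i, (fun u => (cV i u : K)) ∈ LinearMap.range L := by
    intro i
    have hle : Submodule.span K (Set.range w) ≤ LinearMap.range L := by
      rw [Submodule.span_le]
      rintro _ ⟨l, rfl⟩
      exact ⟨_, rfl⟩
    exact hle (hc'1 i)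
  refine ⟨IsLocalRing.ResidueField V, inferInstance, inferInstance, fun i u => ρ (cV i u),
    hc'2, ?_⟩
  · intro i0 x
    choose X hX using fun i => IsLocalRing.residue_surjective (R := V) (x i)
    let d : Fin r ⊕ J → V := ∑ i, X i • cV i
    have hd : (fun u => (d u : K)) ∈ LinearMap.range L := by
      have h1 : (fun u => (d u : K)) = ∑ i, (X i : K) • fun u => (cV i u : K) := by
        funext u
        rw [← hφ]
        simp only [d, Finset.sum_apply, Pi.smul_apply, smul_eq_mul]
        rw [map_sum]
        refine Finset.sum_congr rfl fun i _ => ?_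
        rw [map_mul]
        rfl
      rw [h1]
      exact Submodule.sum_mem _ fun i _ => Submodule.smul_mem _ _ (hcV i)
    obtain ⟨s, hs⟩ := hd
    rw [hL] at hs
    have hA' := hA i0 s
    rw [hs] at hA'
    let F : V := aeval (bvec b d) (G i0)
    let y : V := ∑ j, d (Sum.inr j) * aeval (fun i => d (Sum.inl i)) (g i0 j)
    have hF : (F : K) = aeval (bvec b fun u => (d u : K)) (G i0) := by
      have h1 := comp_aeval_apply (bvec b d) φ (G i0)
      have h2 : (fun t => φ (bvec b d t)) = bvec b fun u => (d u : K) := by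
        funext t
        rw [bvec_map]
        rfl
      rw [h2] at h1
      exact h1
    have hy : (y : K) = ∑ j, (d (Sum.inr j) : K) *
        aeval (fun i => (d (Sum.inl i) : K)) (g i0 j) := by
      rw [← hφ]
      simp only [y]
      rw [map_sum]
      refine Finset.sum_congr rfl fun j _ => ?_
      rw [map_mul]
      congr 1
      exact comp_aeval_apply (fun i => d (Sum.inl i)) φ (g i0 j)
    rw [← hF, ← hy] at hA'
    have hFmem : F ∈ IsLocalRing.maximalIdeal V := by
      rw [IsLocalRing.mem_maximalIdeal]
      intro hu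
      apply hτV
      obtain ⟨F', hF'⟩ := hu.exists_right_inv
      have h1 : (F : K) * (F' : K) = 1 := by
        have := congrArg (fun v : V => (v : K)) hF'
        simpa using this
      have h2 : τ = ((- y * F' : V) : K) := by
        have h3 : ((- y * F' : V) : K) = - (y : K) * (F' : K) := by push_cast; ring
        rw [h3]
        linear_combination (F' : K) * hA' - τ * h1
      rw [h2]
      exact Subtype.coe_prop _
    have hF0 : ρ F = 0 := by
      rw [hρ]
      exact (IsLocalRing.residue_eq_zero_iff F).mpr hFmem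
    have h1 := comp_aeval_apply (bvec b d) ρ (G i0)
    have h2 : (fun t => ρ (bvec b d t)) = bvec b (∑ i, x i • fun u => ρ (cV i u)) := by
      funext t
      rw [bvec_map]
      congr 1
      funext u
      simp only [d, Finset.sum_apply, Pi.smul_apply, smul_eq_mul, map_sum, map_mul]
      refine Finset.sum_congr rfl fun i _ => ?_
      rw [hρ, hX]
    rw [h2] at h1
    rw [← h1]
    exact hF0

end Deform

section Descent

variable {σ : Type*}

/-- the restriction of a form to a linear space -/
noncomputable def restr {E : Type*} [Field E] {r : ℕ} {R : Type*} [CommRing R] [Algebra E R]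
    (G : MvPolynomial σ E) (lam : Fin r → σ → R) : MvPolynomial (Fin r) R :=
  aeval (fun t => ∑ j, X j * C (lam j t)) G

theorem restr_map {E : Type*} [Field E] {r : ℕ} {R S : Type*} [CommRing R] [Algebra E R]
    [CommRing S] [Algebra E S] (g : R →ₐ[E] S) (G : MvPolynomial σ E) (lam : Fin r → σ → R) :
    map (g : R →+* S) (restr G lam) = restr G (fun j t => g (lam j t)) := by
  have h := comp_aeval_apply (fun t => ∑ j, X j * C (lam j t)) (mapAlgHom (σ := Fin r) g) G
  have hs : (fun t => mapAlgHom (σ := Fin r) g (∑ j, X j * C (lam j t))) =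
      fun t => ∑ j, X j * C (g (lam j t)) := by
    funext t
    rw [map_sum]
    refine Finset.sum_congr rfl fun i _ => ?_
    rw [map_mul]
    simp [mapAlgHom_apply]
  rw [hs] at h
  exact h

theorem eval_restr {E : Type*} [Field E] {r : ℕ} {R : Type*} [CommRing R] [Algebra E R]
    (G : MvPolynomial σ E) (lam : Fin r → σ → R) (s : Fin r → R) :
    eval s (restr G lam) = aeval (fun t => ∑ j, s j * lam j t) G := by
  have h := comp_aeval_apply (fun t => ∑ j, X j * C (lam j t))
    ((aeval s : MvPolynomial (Fin r) R →ₐ[R] R).restrictScalars E) G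
  have hs : (fun t => ((aeval s : MvPolynomial (Fin r) R →ₐ[R] R).restrictScalars E)
      (∑ j, X j * C (lam j t))) = fun t => ∑ j, s j * lam j t := by
    funext t
    show aeval s (∑ j, X j * C (lam j t)) = _
    rw [map_sum]
    refine Finset.sum_congr rfl fun i _ => ?_
    rw [map_mul, aeval_X, ← MvPolynomial.algebraMap_eq, AlgHom.commutes]
    rfl
  rw [hs] at h
  rw [← h]
  rfl

/-- a linear space over an extension specialises -/
theorem descend_any [Fintype σ] {E : Type*} [Field E] [IsAlgClosed E] {ι : Type*} (G : ι → MvPolynomial σ E)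
    {r : ℕ} {κ : Type*} [Field κ] [Algebra E κ] (lam : Fin r → σ → κ)
    (hli : LinearIndependent κ lam)
    (hiso : ∀ i, ∀ s : Fin r → κ, aeval (fun t => ∑ j, s j * lam j t) (G i) = 0) :
    ∃ lam' : Fin r → σ → E, LinearIndependent E lam' ∧
      ∀ i, ∀ s : Fin r → E, aeval (fun t => ∑ j, s j * lam' j t) (G i) = 0 := by
  classical
  obtain ⟨D, hD⟩ := PD5.dual_of_li lam hli
  have hinf : Infinite κ :=
    Infinite.of_injective (algebraMap E κ) (algebraMap E κ).injective
  have hzero : ∀ i, restr (G i) lam = 0 := by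
    intro i
    apply MvPolynomial.funext
    intro s
    rw [eval_restr, hiso, map_zero]
  let s : Set κ := Set.range (fun q : (Fin r × σ) ⊕ (Fin r × σ) =>
    Sum.elim (fun q => lam q.1 q.2) (fun q => D q.1 q.2) q)
  have hsfin : s.Finite := Set.finite_range _
  let A : Subalgebra E κ := Algebra.adjoin E s
  have hfg : A.FG := by
    refine ⟨hsfin.toFinset, ?_⟩
    rw [Set.Finite.coe_toFinset]
  have hft : Algebra.FiniteType E A := (Subalgebra.fg_iff_finiteType A).mp hfg
  obtain ⟨g⟩ := PD5.exists_point' (E := E) (A := A)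
  have hlam : ∀ j i, lam j i ∈ A := fun j i => Algebra.subset_adjoin ⟨Sum.inl (j, i), rfl⟩
  have hDA : ∀ j i, D j i ∈ A := fun j i => Algebra.subset_adjoin ⟨Sum.inr (j, i), rfl⟩
  let lamA : Fin r → σ → A := fun j i => ⟨lam j i, hlam j i⟩
  let DA : Fin r → σ → A := fun j i => ⟨D j i, hDA j i⟩
  refine ⟨fun j i => g (lamA j i), ?_, ?_⟩
  · refine PD5.li_of_dual _ (fun j i => g (DA j i)) ?_
    intro i j
    have h1 : ∑ t, lamA i t * DA j t = if i = j then 1 else 0 := by
      apply Subtype.ext
      have h2 := hD i j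
      have h3 : ((∑ t, lamA i t * DA j t : A) : κ) = ∑ t, lam i t * D j t := by
        have := map_sum A.val (fun t => lamA i t * DA j t) Finset.univ
        rw [Subalgebra.coe_val] at this
        rw [this]
        rfl
      rw [h3, h2]
      split_ifs <;> rfl
    have h4 := congrArg g h1
    rw [map_sum] at h4
    simp only [map_mul] at h4
    rw [h4]
    split_ifs
    · exact map_one g
    · exact map_zero g
  · intro i s
    have h1 : restr (G i) lamA = 0 := by
      apply MvPolynomial.map_injective (A.val : A →+* κ) Subtype.val_injective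
      rw [restr_map, map_zero]
      exact hzero i
    have h2 := restr_map g (G i) lamA
    rw [h1, map_zero] at h2
    rw [← eval_restr, ← h2, map_zero]

end Descent

section Final

variable {σ : Type*} [Fintype σ]

/-- independent families of every length up to the dimension -/
theorem exists_li_any (E : Type*) [Field E] (m : ℕ) (hm : m ≤ Fintype.card σ) :
    ∃ v : Fin m → σ → E, LinearIndependent E v := by
  classical
  obtain ⟨f⟩ : Nonempty (Fin m ↪ σ) := by
    apply Function.Embedding.nonempty_of_card_le
    simpa using hm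
  exact ⟨fun i => Pi.single (f i) 1, (Pi.linearIndependent_single_one σ E).comp f f.injective⟩

/-- the existence theorem, from a system of forms with the peeling property -/
theorem exists_space_of_peel {E : Type*} [Field E] [IsAlgClosed E] {ι : Type*} [Fintype ι]
    (d : ι → ℕ) (G : ι → MvPolynomial σ E)
    (hG : ∀ i, (G i).IsHomogeneous (d i)) (r m : ℕ) (hpeel : Peel E d r m)
    (hcard : r + m ≤ Fintype.card σ) :
    ∃ e : Fin r → σ → E, LinearIndependent E e ∧
      ∀ i, ∀ s : Fin r → E, aeval (fun l => ∑ j, s j * e j l) (G i) = 0 := by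
  classical
  obtain ⟨g, _, hpeel⟩ := hpeel
  obtain ⟨v, hv⟩ := exists_li_any (σ := σ) E (r + m) hcard
  let e : Fin r ⊕ Fin m ≃ Fin (r + m) := finSumFinEquiv
  let b : Fin r ⊕ Fin m → σ → E := fun u => v (e u)
  obtain ⟨τ, A, hτ, hA⟩ := exists_graph_fieldA d G hG b g hpeel
  obtain ⟨κ, hκ1, hκ2, c, hcli, hcF⟩ := exists_residueA G b g τ hτ A hA
  let lam : Fin r → σ → κ := fun i => bvec b (c i)
  refine descend_any G lam ?_ ?_
  · -- dual families
    have hb' : LinearIndependent E (fun i : Fin (r + m) => b (e.symm i)) := by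
      have : (fun i : Fin (r + m) => b (e.symm i)) = v := by
        funext i
        simp [b]
      rw [this]; exact hv
    obtain ⟨B, hB⟩ := PD5.dual_of_li _ hb'
    let c₁ : Fin r → Fin (r + m) → κ := fun i q => c i (e.symm q)
    have hc₁ : LinearIndependent κ c₁ := by
      rw [Fintype.linearIndependent_iff] at hcli ⊢
      intro x hx
      refine hcli x ?_
      funext u
      have := congrFun hx (e u)
      simpa [c₁] using this
    obtain ⟨D, hD⟩ := PD5.dual_of_li c₁ hc₁
    refine PD5.li_of_dual _ (fun j t => ∑ q, D j q * algebraMap E κ (B q t)) ?_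
    intro i j
    rw [← hD i j]
    have h1 : ∀ t, lam i t = ∑ q, c₁ i q * algebraMap E κ (b (e.symm q) t) := by
      intro t
      show ∑ u, c i u * algebraMap E κ (b u t) = _
      exact (Equiv.sum_comp e.symm fun u => c i u * algebraMap E κ (b u t)).symm
    have h2 : ∀ q q', ∑ t, algebraMap E κ (b (e.symm q) t) * algebraMap E κ (B q' t) =
        if q = q' then 1 else 0 := by
      intro q q'
      have := congrArg (algebraMap E κ) (hB q q')
      rw [map_sum] at this
      simp only [map_mul] at this
      rw [this]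
      split_ifs
      · exact map_one _
      · exact map_zero _
    calc ∑ t, lam i t * ∑ q, D j q * algebraMap E κ (B q t)
        = ∑ t, ∑ q, ∑ q', c₁ i q * D j q' *
          (algebraMap E κ (b (e.symm q) t) * algebraMap E κ (B q' t)) := by
          refine Finset.sum_congr rfl fun t _ => ?_
          rw [h1, Finset.sum_mul]
          refine Finset.sum_congr rfl fun q _ => ?_
          rw [Finset.mul_sum]
          refine Finset.sum_congr rfl fun q' _ => ?_
          ring
      _ = ∑ q, ∑ q', c₁ i q * D j q' * ∑ t,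
          (algebraMap E κ (b (e.symm q) t) * algebraMap E κ (B q' t)) := by
          rw [Finset.sum_comm]
          refine Finset.sum_congr rfl fun q _ => ?_
          rw [Finset.sum_comm]
          refine Finset.sum_congr rfl fun q' _ => ?_
          rw [Finset.mul_sum]
      _ = ∑ q, c₁ i q * D j q := by
          refine Finset.sum_congr rfl fun q _ => ?_
          rw [Finset.sum_congr rfl fun q' _ => by rw [h2 q q']]
          simp
  · intro i s
    have h1 : (fun t => ∑ j, s j * lam j t) = bvec b (∑ l, s l • c l) := by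
      funext t
      simp only [lam, bvec, Finset.sum_apply, Pi.smul_apply, smul_eq_mul, Finset.mul_sum,
        Finset.sum_mul]
      rw [Finset.sum_comm]
      refine Finset.sum_congr rfl fun u _ => Finset.sum_congr rfl fun i _ => ?_
      ring
    rw [h1]
    exact hcF i s

end Final

end Pool.Agent.Work.PDM
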