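import Mathlib
import Pool.Agent.Work.MP_b62148_ag.DM.DefsD

/-!
Counting over a finite field: a general system of forms of degrees `d i - 1` generates all forms
of degrees `d i` with linear coefficients, in the range of the expected dimension.
-/

namespace Pool.Agent.Work.PDM

open MvPolynomial

section Pivots

variable {F V' : Type*} [Field F] [AddCommGroup V'] [Module F V'] {r : ℕ}

/-- a maximal independent subfamily -/
theorem exists_pivots (f : Fin r → V') :
    ∃ P : Finset (Fin r), (∀ c : Fin r → F, ∑ p ∈ P, c p • f p = 0 → ∀ p ∈ P, c p = 0) ∧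
      ∃ a : Fin r → Fin r → F, ∀ l, f l = ∑ p ∈ P, a l p • f p := by
  classical
  obtain ⟨κ, a, ha, hsp, hli⟩ := exists_linearIndependent' F f
  have : Finite κ := Finite.of_injective a ha
  have : Fintype κ := Fintype.ofFinite κ
  refine ⟨Finset.univ.map ⟨a, ha⟩, ?_, ?_⟩
  · intro c hc p hp
    rw [Finset.sum_map] at hc
    obtain ⟨k, -, rfl⟩ := Finset.mem_map.mp hp
    exact Fintype.linearIndependent_iff.mp hli (fun k => c (a k)) hc k
  · have h : ∀ l, f l ∈ Submodule.span F (Set.range (f ∘ a)) := fun l => by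
      rw [hsp]; exact Submodule.subset_span ⟨l, rfl⟩
    choose b hb using fun l => (Submodule.mem_span_range_iff_exists_fun F).mp (h l)
    refine ⟨fun l p => if h : ∃ k, a k = p then b l h.choose else 0, fun l => ?_⟩
    rw [Finset.sum_map, ← hb l]
    refine Finset.sum_congr rfl fun k _ => ?_
    have h : ∃ k', a k' = a k := ⟨k, rfl⟩
    have h2 : h.choose = k := ha h.choose_spec
    show b l k • (f ∘ a) k = (if h : ∃ k', a k' = a k then b l h.choose else 0) • f (a k)
    rw [dif_pos h, h2]
    rfl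

theorem card_ker [Finite F] [Finite V'] (f : Fin r → V' →ₗ[F] F) (P : Finset (Fin r))
    (hP : ∀ c : Fin r → F, ∑ p ∈ P, c p • f p = 0 → ∀ p ∈ P, c p = 0) :
    Nat.card {v : V' // ∀ p ∈ P, f p v = 0} * Nat.card F ^ P.card = Nat.card V' := by
  classical
  let T : V' →ₗ[F] (P → F) := LinearMap.pi fun p => f p.1
  have hT : LinearMap.range T = ⊤ := by
    by_contra hne
    obtain ⟨g, hg0, hg⟩ := Submodule.exists_le_ker_of_lt_top _ (lt_top_iff_ne_top.mpr hne)
    apply hg0
    have hsum : ∀ x : P → F, g x = ∑ p, x p * g (Pi.single p 1) := by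
      intro x
      conv_lhs => rw [← Finset.univ_sum_single x]
      rw [map_sum]
      refine Finset.sum_congr rfl fun p _ => ?_
      have : (Pi.single p (x p) : P → F) = x p • Pi.single p (1 : F) := by
        rw [← Pi.single_smul]
        simp
      rw [this, map_smul, smul_eq_mul]
    let c : Fin r → F := fun p => if h : p ∈ P then g (Pi.single ⟨p, h⟩ 1) else 0
    have hc : ∀ p : P, c p.1 = g (Pi.single p 1) := fun p => by
      simp only [c, p.2, dif_pos]
    have h1 : ∑ p ∈ P, c p • f p = 0 := by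
      ext v
      have h2 := hg ⟨v, rfl⟩
      rw [LinearMap.mem_ker, hsum] at h2
      rw [LinearMap.zero_apply, LinearMap.sum_apply, ← Finset.sum_coe_sort, ← h2]
      refine Finset.sum_congr rfl fun p _ => ?_
      rw [LinearMap.smul_apply, smul_eq_mul, hc, mul_comm]
      rfl
    have h2 := hP c h1
    apply LinearMap.ext
    intro x
    rw [hsum, LinearMap.zero_apply]
    refine Finset.sum_eq_zero fun p _ => ?_
    rw [← hc, h2 p.1 p.2, mul_zero]
  have hfin : Module.Finite F V' := inferInstance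
  have hker : Nat.card {v : V' // ∀ p ∈ P, f p v = 0} = Nat.card (LinearMap.ker T) := by
    refine Nat.card_congr (Equiv.subtypeEquivRight fun v => ?_)
    rw [LinearMap.mem_ker]
    constructor
    · intro h
      funext p
      exact h p.1 p.2
    · intro h p hp
      exact congrFun h ⟨p, hp⟩
  rw [hker, Module.natCard_eq_pow_finrank (K := F), Module.natCard_eq_pow_finrank (K := F) (V := V'),
    ← LinearMap.finrank_range_add_finrank_ker T, hT, finrank_top,
    Module.finrank_fintype_fun_eq_card, Fintype.card_coe, ← pow_add, add_comm]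

end Pivots

/-- monomials of degree `n` in `r` variables -/
def mon (r n : ℕ) : Finset (Fin r →₀ ℕ) := Finset.finsuppAntidiag Finset.univ n

theorem mem_mon {r n : ℕ} {ν : Fin r →₀ ℕ} : ν ∈ mon r n ↔ ν.degree = n := by
  unfold mon
  rw [Finset.mem_finsuppAntidiag, Finsupp.degree_eq_sum]
  simp

theorem mon_add {r n : ℕ} (hn : 1 ≤ n) {μ : Fin r →₀ ℕ} (hμ : μ ∈ mon r (n - 1)) (l : Fin r) :
    μ + Finsupp.single l 1 ∈ mon r n := by
  rw [mem_mon] at hμ ⊢
  rw [map_add, Finsupp.degree_single, hμ]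
  omega

section Count

variable {F : Type*} [Field F] {ι : Type*} {d : ι → ℕ} {r : ℕ}

/-- the extension of a functional by zero -/
def ex (φ : (i : ι) → mon r (d i) → F) (i : ι) (ν : Fin r →₀ ℕ) : F :=
  if h : ν ∈ mon r (d i) then φ i ⟨ν, h⟩ else 0

theorem ex_smul (c : F) (φ : (i : ι) → mon r (d i) → F) (i : ι) (ν : Fin r →₀ ℕ) :
    ex (c • φ) i ν = c * ex φ i ν := by
  unfold ex
  split_ifs
  · rfl
  · rw [mul_zero]

variable [Fintype ι]

/-- the functional `v ↦ φ (x_l v)` -/
noncomputable def MM (φ : (i : ι) → mon r (d i) → F) (l : Fin r) : ((i : ι) → mon r (d i - 1) → F) →ₗ[F] F where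
  toFun v := ∑ i, ∑ μ : mon r (d i - 1), v i μ * ex φ i (μ.1 + Finsupp.single l 1)
  map_add' v w := by
    simp only [Pi.add_apply, add_mul, Finset.sum_add_distrib]
  map_smul' c v := by
    simp only [Pi.smul_apply, smul_eq_mul, mul_assoc, Finset.mul_sum, RingHom.id_apply]

theorem MM_apply (φ : (i : ι) → mon r (d i) → F) (l : Fin r) (v : (i : ι) → mon r (d i - 1) → F) :
    MM φ l v = ∑ i, ∑ μ : mon r (d i - 1), v i μ * ex φ i (μ.1 + Finsupp.single l 1) := rfl

theorem MM_smul (c : F) (φ : (i : ι) → mon r (d i) → F) (l : Fin r)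
    (v : (i : ι) → mon r (d i - 1) → F) : MM (c • φ) l v = c * MM φ l v := by
  simp only [MM_apply, ex_smul, Finset.mul_sum]
  refine Finset.sum_congr rfl fun i _ => Finset.sum_congr rfl fun μ _ => ?_
  ring

theorem MM_single [DecidableEq ι] (φ : (i : ι) → mon r (d i) → F) (l : Fin r) (i : ι)
    (μ : mon r (d i - 1)) :
    MM φ l (Pi.single i (Pi.single μ 1)) = ex φ i (μ.1 + Finsupp.single l 1) := by
  rw [MM_apply, Finset.sum_eq_single i, Finset.sum_eq_single μ]
  · simp
  · intro ν _ hν
    rw [Pi.single_eq_same, Pi.single_eq_of_ne hν, zero_mul]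
  · simp
  · intro j _ hj
    refine Finset.sum_eq_zero fun ν _ => ?_
    rw [Pi.single_eq_of_ne hj, Pi.zero_apply, zero_mul]
  · simp

/-- the functionals for which the rows outside `P` are combinations of the rows in `P` -/
def SP (F : Type*) [Field F] (d : ι → ℕ) (P : Finset (Fin r)) :
    Set ((i : ι) → mon r (d i) → F) :=
  {φ | ∃ a : Fin r → Fin r → F, ∀ i, ∀ μ ∈ mon r (d i - 1), ∀ l,
    ex φ i (μ + Finsupp.single l 1) = ∑ p ∈ P, a l p * ex φ i (μ + Finsupp.single p 1)}

omit [Fintype ι] in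
theorem ex_determined (P : Finset (Fin r)) (φ ψ : (i : ι) → mon r (d i) → F)
    (a b : Fin r → Fin r → F)
    (ha : ∀ i, ∀ μ ∈ mon r (d i - 1), ∀ l,
      ex φ i (μ + Finsupp.single l 1) = ∑ p ∈ P, a l p * ex φ i (μ + Finsupp.single p 1))
    (hb : ∀ i, ∀ μ ∈ mon r (d i - 1), ∀ l,
      ex ψ i (μ + Finsupp.single l 1) = ∑ p ∈ P, b l p * ex ψ i (μ + Finsupp.single p 1))
    (hab : ∀ l, l ∉ P → ∀ p ∈ P, a l p = b l p)
    (h : ∀ i, ∀ ν ∈ Finset.finsuppAntidiag P (d i), ex φ i ν = ex ψ i ν) : φ = ψ := by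
  classical
  have key : ∀ (i : ι) (N : ℕ) (ν : Fin r →₀ ℕ), ν ∈ mon r (d i) → ∑ l ∈ Pᶜ, ν l = N →
      ex φ i ν = ex ψ i ν := by
    intro i N
    induction N with
    | zero =>
      intro ν hν hN
      apply h
      rw [Finset.mem_finsuppAntidiag]
      have h0 : ∀ l, l ∉ P → ν l = 0 := fun l hl =>
        (Finset.sum_eq_zero_iff.mp hN) l (Finset.mem_compl.mpr hl)
      refine ⟨?_, fun l hl => ?_⟩
      · rw [mem_mon, Finsupp.degree_eq_sum, ← Finset.sum_add_sum_compl P, hN, add_zero] at hν
        exact hν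
      · by_contra hlP
        exact (Finsupp.mem_support_iff.mp hl) (h0 l hlP)
    | succ N ih =>
      intro ν hν hN
      have hex : ∃ l ∈ Pᶜ, ν l ≠ 0 := by
        by_contra hcon
        push Not at hcon
        rw [Finset.sum_eq_zero hcon] at hN
        omega
      obtain ⟨l, hl, hνl⟩ := hex
      rw [Finset.mem_compl] at hl
      set μ : Fin r →₀ ℕ := ν - Finsupp.single l 1 with hμdef
      have hμ : μ + Finsupp.single l 1 = ν := by
        rw [hμdef]
        apply tsub_add_cancel_of_le
        rw [Finsupp.single_le_iff]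
        omega
      have hdeg : μ.degree + 1 = d i := by
        have h1 := mem_mon.mp hν
        rw [← hμ, map_add, Finsupp.degree_single] at h1
        exact h1
      have hμm : μ ∈ mon r (d i - 1) := by
        rw [mem_mon]; omega
      rw [← hμ, ha i μ hμm l, hb i μ hμm l]
      refine Finset.sum_congr rfl fun p hp => ?_
      rw [hab l hl p hp]
      congr 1
      apply ih
      · exact mon_add (by omega) hμm p
      · have h1 : ∑ l' ∈ Pᶜ, (μ + Finsupp.single p 1 : Fin r →₀ ℕ) l' = ∑ l' ∈ Pᶜ, μ l' := by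
          refine Finset.sum_congr rfl fun l' hl' => ?_
          rw [Finset.mem_compl] at hl'
          have : p ≠ l' := fun h => hl' (h ▸ hp)
          rw [Finsupp.add_apply, Finsupp.single_eq_of_ne' this, add_zero]
        have h2 : ∑ l' ∈ Pᶜ, ν l' = ∑ l' ∈ Pᶜ, μ l' + 1 := by
          rw [← hμ]
          simp only [Finsupp.add_apply, Finset.sum_add_distrib]
          congr 1
          rw [Finset.sum_eq_single l]
          · simp
          · intro b _ hb
            rw [Finsupp.single_eq_of_ne' hb.symm]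
          · intro hl2
            exact absurd (Finset.mem_compl.mpr hl) hl2
        rw [h1]
        omega
  funext i ν
  have h1 := key i _ ν.1 ν.2 rfl
  unfold ex at h1
  rw [dif_pos ν.2, dif_pos ν.2] at h1
  exact h1

theorem card_SP [Finite F] (P : Finset (Fin r)) :
    Nat.card (SP F d P) ≤ Nat.card F ^ (P.card * (r - P.card) + ∑ i, (P.card + d i - 1).choose (d i)) := by
  classical
  have : Fintype F := Fintype.ofFinite F
  let f : SP F d P → (((Pᶜ : Finset (Fin r)) × P → F) × ((i : ι) → Finset.finsuppAntidiag P (d i) → F)) :=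
    fun φ => (fun x => φ.2.choose x.1.1 x.2.1, fun i ν => ex φ.1 i ν.1)
  have hf : Function.Injective f := by
    intro φ ψ hfg
    have h1 := congrArg Prod.fst hfg
    have h2 := congrArg Prod.snd hfg
    apply Subtype.ext
    refine ex_determined P φ.1 ψ.1 φ.2.choose ψ.2.choose φ.2.choose_spec ψ.2.choose_spec ?_ ?_
    · intro l hl p hp
      exact congrFun h1 (⟨l, Finset.mem_compl.mpr hl⟩, ⟨p, hp⟩)
    · intro i ν hν
      exact congrFun (congrFun h2 i) ⟨ν, hν⟩
  refine (Nat.card_le_card_of_injective f hf).trans (le_of_eq ?_)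
  rw [Nat.card_eq_fintype_card, Nat.card_eq_fintype_card, Fintype.card_prod, Fintype.card_fun,
    Fintype.card_pi, Fintype.card_prod, Fintype.card_coe, Fintype.card_coe, Finset.card_compl,
    Fintype.card_fin]
  have h1 : ∀ i, Fintype.card (Finset.finsuppAntidiag P (d i) → F) =
      Fintype.card F ^ (P.card + d i - 1).choose (d i) := by
    intro i
    rw [Fintype.card_fun, Fintype.card_coe, Finset.card_finsuppAntidiag_nat_eq_choose]
  simp only [h1]
  rw [Finset.prod_pow_eq_pow_sum, ← pow_add, mul_comm P.card]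

theorem mem_SP (ψ : (i : ι) → mon r (d i) → F) (P : Finset (Fin r)) (a : Fin r → Fin r → F)
    (ha : ∀ l, MM ψ l = ∑ p ∈ P, a l p • MM ψ p) : ψ ∈ SP F d P := by
  have := Classical.decEq ι
  refine ⟨a, fun i μ hμ l => ?_⟩
  have h1 := congrArg (fun g : ((i : ι) → mon r (d i - 1) → F) →ₗ[F] F =>
    g (Pi.single i (Pi.single ⟨μ, hμ⟩ 1))) (ha l)
  simp only [LinearMap.sum_apply, LinearMap.smul_apply, smul_eq_mul, MM_single] at h1
  exact h1

/-- a family of vectors killed by no functional -/
theorem exists_good [Finite F] (m : ℕ) (hd : ∀ i, 1 ≤ d i)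
    (hm : ∀ ρ, 1 ≤ ρ → ρ ≤ r → ρ * (r - ρ) + ∑ i, (ρ + d i - 1).choose (d i) ≤ m * ρ)
    (hq : 2 ^ r + 1 < Nat.card F) :
    ∃ v : Fin m → (i : ι) → mon r (d i - 1) → F, ∀ φ : (i : ι) → mon r (d i) → F,
      (∀ j l, MM φ l (v j) = 0) → φ = 0 := by
  classical
  by_contra hcon
  push Not at hcon
  choose φ hφ hφ0 using hcon
  choose P hP a ha using fun ψ : (i : ι) → mon r (d i) → F =>
    exists_pivots (F := F) (fun l => MM ψ l)
  let V := (i : ι) → mon r (d i - 1) → F
  let SL : Finset (Fin r) → Type _ := fun Q => {ψ : SP F d Q //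
    ∀ c : Fin r → F, ∑ p ∈ Q, c p • MM ψ.1 p = 0 → ∀ p ∈ Q, c p = 0}
  let KK : (Q : Finset (Fin r)) → SL Q → Type _ := fun Q ψ => {v : V // ∀ p ∈ Q, MM ψ.1.1 p v = 0}
  let Y := Σ Q : Finset (Fin r), Σ ψ : SL Q, (Fin m → KK Q ψ)
  have hfinKK : ∀ Q ψ, Finite (KK Q ψ) := fun Q ψ => inferInstance
  have hfinSL : ∀ Q, Finite (SL Q) := fun Q => inferInstance
  have hmem : ∀ ψ : (i : ι) → mon r (d i) → F, ψ ∈ SP F d (P ψ) := fun ψ =>
    mem_SP ψ (P ψ) (a ψ) (ha ψ)
  let f : (Fin m → V) × Fˣ → Y := fun x =>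
    ⟨P ((x.2 : F) • φ x.1), ⟨⟨(x.2 : F) • φ x.1, hmem _⟩, hP _⟩, fun j => ⟨x.1 j, fun p _ => by
      rw [MM_smul, hφ, mul_zero]⟩⟩
  let g : Y → ((i : ι) → mon r (d i) → F) × (Fin m → V) := fun y =>
    (y.2.1.1.1, fun j => (y.2.2 j).1)
  have hf : Function.Injective f := by
    rintro ⟨v, c⟩ ⟨v', c'⟩ h
    have h1 := congrArg g h
    have h2 : v = v' := congrArg Prod.snd h1
    subst h2
    have h3 : (c : F) • φ v = (c' : F) • φ v := congrArg Prod.fst h1
    have h4 : ((c : F) - c') • φ v = 0 := by rw [sub_smul, h3, sub_self]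
    rcases smul_eq_zero.mp h4 with h5 | h5
    · rw [Prod.mk.injEq]
      exact ⟨rfl, Units.ext (sub_eq_zero.mp h5)⟩
    · exact absurd h5 (hφ0 v)
  have hcard := Nat.card_le_card_of_injective f hf
  have hq0 : 0 < Nat.card F := Nat.card_pos
  have hW : 0 < Nat.card (Fin m → V) := Nat.card_pos
  have hone : ∀ Q : Finset (Fin r), Nat.card (Σ ψ : SL Q, (Fin m → KK Q ψ)) ≤
      Nat.card (Fin m → V) := by
    intro Q
    have hSLf : Fintype (SL Q) := Fintype.ofFinite _
    have h1 : Nat.card (Σ ψ : SL Q, (Fin m → KK Q ψ)) * Nat.card F ^ (m * Q.card) =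
        Nat.card (SL Q) * Nat.card (Fin m → V) := by
      have h0 : Nat.card (SL Q) * Nat.card (Fin m → V) = ∑ _ψ : SL Q, Nat.card (Fin m → V) := by
        rw [Finset.sum_const, Finset.card_univ, Nat.card_eq_fintype_card, smul_eq_mul]
      rw [Nat.card_sigma, Finset.sum_mul, h0]
      refine Finset.sum_congr rfl fun ψ _ => ?_
      have h2 := card_ker (fun l => MM ψ.1.1 l) Q ψ.2
      rw [Nat.card_fun, Nat.card_fun, Nat.card_eq_fintype_card (α := Fin m), Fintype.card_fin,
        ← h2, mul_pow, ← pow_mul, mul_comm Q.card]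
    have h3 : Nat.card (SL Q) ≤ Nat.card F ^ (m * Q.card) := by
      refine (Nat.card_le_card_of_injective (fun ψ : SL Q => ψ.1)
        Subtype.val_injective).trans ((card_SP Q).trans ?_)
      apply Nat.pow_le_pow_right hq0
      rcases Nat.eq_zero_or_pos Q.card with h0 | h0
      · rw [h0]
        have : ∀ i, (d i - 1).choose (d i) = 0 := fun i => by
          apply Nat.choose_eq_zero_of_lt
          have := hd i
          omega
        simp [this]
      · exact hm _ h0 (by simpa using Finset.card_le_univ Q)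
    have h4 : 0 < Nat.card F ^ (m * Q.card) := Nat.pow_pos hq0
    have h5 : Nat.card (Σ ψ : SL Q, (Fin m → KK Q ψ)) * Nat.card F ^ (m * Q.card) ≤
        Nat.card (Fin m → V) * Nat.card F ^ (m * Q.card) := by
      rw [h1, mul_comm (Nat.card (Fin m → V))]
      exact Nat.mul_le_mul_right _ h3
    exact Nat.le_of_mul_le_mul_right h5 h4
  have hY : Nat.card Y ≤ 2 ^ r * Nat.card (Fin m → V) := by
    have h1 : Nat.card Y = ∑ Q : Finset (Fin r), Nat.card (Σ ψ : SL Q, (Fin m → KK Q ψ)) :=
      Nat.card_sigma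
    rw [h1]
    refine (Finset.sum_le_sum fun Q _ => hone Q).trans ?_
    rw [Finset.sum_const, Finset.card_univ, Fintype.card_finset, Fintype.card_fin, smul_eq_mul]
  have h6 : Nat.card (Fin m → V) * (Nat.card F - 1) ≤ 2 ^ r * Nat.card (Fin m → V) := by
    rw [Nat.card_prod, Nat.card_units] at hcard
    exact hcard.trans hY
  have h7 : Nat.card F - 1 ≤ 2 ^ r := by
    rw [mul_comm] at h6
    exact Nat.le_of_mul_le_mul_right h6 hW
  omega

end Count

section Peel

variable {F : Type*} [Field F] {ι : Type*} [Fintype ι] {d : ι → ℕ} {r : ℕ}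

/-- the multiples of the vectors by linear forms -/
noncomputable def mult {m : ℕ} (v : Fin m → (i : ι) → mon r (d i - 1) → F) :
    (Fin m → Fin r → F) →ₗ[F] ((i : ι) → mon r (d i) → F) where
  toFun A := fun i ν => ∑ j, ∑ l, A j l *
    ∑ μ : mon r (d i - 1), if μ.1 + Finsupp.single l 1 = ν.1 then v j i μ else 0
  map_add' A B := by
    funext i ν
    simp only [Pi.add_apply, add_mul, Finset.sum_add_distrib]
  map_smul' c A := by
    funext i ν
    simp only [Pi.smul_apply, smul_eq_mul, mul_assoc, Finset.mul_sum, RingHom.id_apply]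

theorem peel_of_good (hd : ∀ i, 1 ≤ d i) {m : ℕ} (v : Fin m → (i : ι) → mon r (d i - 1) → F)
    (hv : ∀ φ : (i : ι) → mon r (d i) → F, (∀ j l, MM φ l (v j) = 0) → φ = 0) :
    Peel F d r m := by
  classical
  have hsur : LinearMap.range (mult v) = ⊤ := by
    by_contra hne
    obtain ⟨f, hf0, hf⟩ := Submodule.exists_le_ker_of_lt_top _ (lt_top_iff_ne_top.mpr hne)
    apply hf0
    let φ : (i : ι) → mon r (d i) → F := fun i ν => f (Pi.single i (Pi.single ν 1))
    have hsum : ∀ x : (i : ι) → mon r (d i) → F, f x = ∑ i, ∑ ν, x i ν * φ i ν := by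
      intro x
      conv_lhs => rw [← Finset.univ_sum_single x]
      rw [map_sum]
      refine Finset.sum_congr rfl fun i _ => ?_
      have h1 : (Pi.single i (x i) : (i : ι) → mon r (d i) → F) =
          ∑ ν, x i ν • Pi.single i (Pi.single ν (1 : F)) := by
        rw [← Finset.univ_sum_single (x i)]
        funext i'
        by_cases hi : i' = i
        · subst hi
          rw [Pi.single_eq_same, Finset.sum_apply]
          refine Finset.sum_congr rfl fun ν _ => ?_
          rw [Pi.smul_apply, Pi.single_eq_same, Finset.univ_sum_single, ← Pi.single_smul]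
          simp
        · rw [Pi.single_eq_of_ne hi, Finset.sum_apply]
          symm
          refine Finset.sum_eq_zero fun ν _ => ?_
          rw [Pi.smul_apply, Pi.single_eq_of_ne hi, smul_zero]
      rw [h1, map_sum]
      refine Finset.sum_congr rfl fun ν _ => ?_
      rw [map_smul, smul_eq_mul]
    have hφ : φ = 0 := by
      apply hv
      intro j l
      have h1 := hf ⟨Pi.single j (Pi.single l 1), rfl⟩
      rw [LinearMap.mem_ker, hsum] at h1
      rw [MM_apply, ← h1]
      refine Finset.sum_congr rfl fun i _ => ?_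
      have h2 : ∀ ν : mon r (d i), mult v (Pi.single j (Pi.single l 1)) i ν =
          ∑ μ : mon r (d i - 1), if μ.1 + Finsupp.single l 1 = ν.1 then v j i μ else 0 := by
        intro ν
        show ∑ j', ∑ l', (Pi.single j (Pi.single l (1 : F)) : Fin m → Fin r → F) j' l' * _ = _
        rw [Finset.sum_eq_single j, Finset.sum_eq_single l]
        · rw [Pi.single_eq_same, Pi.single_eq_same, one_mul]
        · intro l' _ hl'
          rw [Pi.single_eq_same, Pi.single_eq_of_ne hl', zero_mul]
        · simp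
        · intro j' _ hj'
          refine Finset.sum_eq_zero fun l' _ => ?_
          rw [Pi.single_eq_of_ne hj', Pi.zero_apply, zero_mul]
        · simp
      simp only [h2, Finset.sum_mul]
      rw [Finset.sum_comm]
      refine Finset.sum_congr rfl fun μ _ => ?_
      have h3 : μ.1 + Finsupp.single l 1 ∈ mon r (d i) := mon_add (hd i) μ.2 l
      rw [Finset.sum_eq_single (⟨_, h3⟩ : mon r (d i))]
      · rw [if_pos rfl]
        unfold ex
        rw [dif_pos h3]
      · intro ν _ hν
        rw [if_neg, zero_mul]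
        intro h4
        exact hν (Subtype.ext h4.symm)
      · simp
    apply LinearMap.ext
    intro x
    rw [hsum, hφ, LinearMap.zero_apply]
    simp
  let g : ι → Fin m → MvPolynomial (Fin r) F := fun i j =>
    ∑ μ : mon r (d i - 1), monomial μ.1 (v j i μ)
  have hg : ∀ i j, (g i j).IsHomogeneous (d i - 1) := by
    intro i j
    refine IsHomogeneous.sum _ _ _ fun μ _ => ?_
    exact isHomogeneous_monomial _ (mem_mon.mp μ.2)
  refine ⟨g, hg, fun h hh => ?_⟩
  have h0 : (fun i (ν : mon r (d i)) => coeff ν.1 (h i)) ∈ LinearMap.range (mult v) := by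
    rw [hsur]; trivial
  obtain ⟨A, hA⟩ := h0
  refine ⟨A, fun i => ?_⟩
  have hom : (∑ j, (∑ l, C (A j l) * X l) * g i j).IsHomogeneous (d i) := by
    refine IsHomogeneous.sum _ _ _ fun j _ => ?_
    have h1 : (∑ l, C (A j l) * X l : MvPolynomial (Fin r) F).IsHomogeneous 1 :=
      IsHomogeneous.sum _ _ _ fun l _ => isHomogeneous_C_mul_X _ _
    have h2 := h1.mul (hg i j)
    have h3 : 1 + (d i - 1) = d i := by have := hd i; omega
    rw [h3] at h2
    exact h2
  ext ν
  by_cases hν : ν ∈ mon r (d i)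
  · have h1 := congrFun (congrFun hA i) ⟨ν, hν⟩
    rw [← h1]
    show coeff ν (∑ j, (∑ l, C (A j l) * X l) * g i j) = ∑ j, ∑ l, A j l *
      ∑ μ : mon r (d i - 1), if μ.1 + Finsupp.single l 1 = ν then v j i μ else 0
    rw [coeff_sum]
    refine Finset.sum_congr rfl fun j _ => ?_
    rw [Finset.sum_mul, coeff_sum]
    refine Finset.sum_congr rfl fun l _ => ?_
    rw [Finset.mul_sum, coeff_sum, Finset.mul_sum]
    refine Finset.sum_congr rfl fun μ _ => ?_
    have h2 : C (A j l) * X l * monomial μ.1 (v j i μ) =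
        monomial (μ.1 + Finsupp.single l 1) (A j l * v j i μ) := by
      rw [mul_assoc, X, monomial_mul, C_mul_monomial, one_mul, add_comm]
    rw [h2, coeff_monomial]
    split_ifs
    · rfl
    · rw [mul_zero]
  · have hne : ν.degree ≠ d i := fun h1 => hν (mem_mon.mpr h1)
    rw [hom.coeff_eq_zero hne, (hh i).coeff_eq_zero hne]

/-- the existence over a large finite prime field -/
theorem peel_finite (p : ℕ) [Fact p.Prime] {ι : Type*} [Fintype ι] (d : ι → ℕ)
    (hd : ∀ i, 1 ≤ d i) (r m : ℕ)
    (hm : ∀ ρ, 1 ≤ ρ → ρ ≤ r → ρ * (r - ρ) + ∑ i, (ρ + d i - 1).choose (d i) ≤ m * ρ)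
    (hp : r * 2 ^ r + 1 < p) : Peel (ZMod p) d r m := by
  rcases Nat.eq_zero_or_pos r with hr | hr
  · subst hr
    refine peel_of_good hd (fun _ _ _ => 0) fun φ _ => ?_
    funext i ν
    exfalso
    have h1 := mem_mon.mp ν.2
    have h2 : ν.1 = 0 := Subsingleton.elim _ _
    rw [h2, map_zero] at h1
    have := hd i
    omega
  · obtain ⟨v, hv⟩ := exists_good (F := ZMod p) m hd hm (by
      rw [Nat.card_zmod]
      have : 2 ^ r ≤ r * 2 ^ r := Nat.le_mul_of_pos_left _ hr
      omega)
    exact peel_of_good hd v hv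

end Peel


end Pool.Agent.Work.PDM
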