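import Pool.Agent.Work.MP_b62148_ag.DM.DefsD

/-!
Lifting a peel system from `ZMod p` to a field of characteristic zero.
-/

namespace Pool.Agent.Work.PDM

open MvPolynomial

section Lift

variable {p : ℕ} [Fact p.Prime]

/-- the integral lift of a polynomial over `ZMod p` -/
noncomputable def lft {r : ℕ} (f : MvPolynomial (Fin r) (ZMod p)) : MvPolynomial (Fin r) ℤ :=
  ∑ ν ∈ f.support, monomial ν ((f.coeff ν).val : ℤ)

theorem map_lft {r : ℕ} (f : MvPolynomial (Fin r) (ZMod p)) :
    map (Int.castRingHom (ZMod p)) (lft f) = f := by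
  unfold lft
  rw [map_sum]
  conv_rhs => rw [f.as_sum]
  refine Finset.sum_congr rfl fun ν _ => ?_
  rw [map_monomial]
  congr 1
  simp

theorem lft_hom {r e : ℕ} {f : MvPolynomial (Fin r) (ZMod p)} (hf : f.IsHomogeneous e) :
    (lft f).IsHomogeneous e := by
  unfold lft
  refine IsHomogeneous.sum _ _ _ fun ν hν => ?_
  refine isHomogeneous_monomial _ ?_
  by_contra hne
  exact (mem_support_iff.mp hν) (hf.coeff_eq_zero hne)

/-- the multiples by linear forms -/
noncomputable def mulL {S : Type*} [CommRing S] {r m : ℕ} (A : Fin m → Fin r → S)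
    (g : Fin m → MvPolynomial (Fin r) S) : MvPolynomial (Fin r) S :=
  ∑ j, (∑ l, C (A j l) * X l) * g j

theorem mulL_map {S S' : Type*} [CommRing S] [CommRing S'] (φ : S →+* S') {r m : ℕ}
    (A : Fin m → Fin r → S) (g : Fin m → MvPolynomial (Fin r) S) :
    map φ (mulL A g) = mulL (fun j l => φ (A j l)) (fun j => map φ (g j)) := by
  simp [mulL, map_sum, map_mul]

theorem mulL_sum {S : Type*} [CommRing S] {r m : ℕ} {T : Type*} (s : Finset T) (b : T → S)
    (A : T → Fin m → Fin r → S) (g : Fin m → MvPolynomial (Fin r) S) :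
    mulL (fun j l => ∑ t ∈ s, b t * A t j l) g = ∑ t ∈ s, C (b t) * mulL (A t) g := by
  unfold mulL
  have h1 : ∀ j, (∑ l, C (∑ t ∈ s, b t * A t j l) * X l : MvPolynomial (Fin r) S) =
      ∑ t ∈ s, C (b t) * ∑ l, C (A t j l) * X l := by
    intro j
    simp only [map_sum, map_mul, Finset.sum_mul, Finset.mul_sum]
    rw [Finset.sum_comm]
    refine Finset.sum_congr rfl fun t _ => Finset.sum_congr rfl fun l _ => ?_
    ring
  simp only [h1, Finset.sum_mul, Finset.mul_sum]
  rw [Finset.sum_comm]
  refine Finset.sum_congr rfl fun t _ => Finset.sum_congr rfl fun j _ => ?_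
  refine Finset.sum_congr rfl fun l _ => ?_
  ring

theorem mulL_hom {S : Type*} [CommRing S] {r m e : ℕ} (he : 1 ≤ e) (A : Fin m → Fin r → S)
    (g : Fin m → MvPolynomial (Fin r) S) (hg : ∀ j, (g j).IsHomogeneous (e - 1)) :
    (mulL A g).IsHomogeneous e := by
  unfold mulL
  refine IsHomogeneous.sum _ _ _ fun j _ => ?_
  have h1 : (∑ l, C (A j l) * X l : MvPolynomial (Fin r) S).IsHomogeneous 1 := by
    refine IsHomogeneous.sum _ _ _ fun l _ => ?_
    have := (isHomogeneous_C (Fin r) (A j l)).mul (isHomogeneous_X S l)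
    simpa using this
  have h2 := h1.mul (hg j)
  have h3 : 1 + (e - 1) = e := by omega
  rwa [h3] at h2

/-- **[D3]** -/
theorem peel_lift (p : ℕ) [Fact p.Prime] {ι : Type*} [Fintype ι] (d : ι → ℕ) (r m : ℕ)
    (h : Peel (ZMod p) d r m) (E : Type*) [Field E] [CharZero E] : Peel E d r m := by
  classical
  obtain ⟨g, hg, hh⟩ := h
  -- all degrees are positive
  have hd : ∀ i, 1 ≤ d i := by
    intro i
    by_contra hcon
    have hi : d i = 0 := by omega
    obtain ⟨A, hA⟩ := hh (fun i' => if i' = i then 1 else 0) (by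
      intro i'
      by_cases h : i' = i
      · subst h
        simp only [if_true, hi]
        exact isHomogeneous_one _ _
      · simp only [h, if_false]
        exact isHomogeneous_zero _ _ _)
    have h1 := congrArg constantCoeff (hA i)
    simp [map_sum, map_mul] at h1
  -- the index set of the monomials
  let T := Σ i : ι, {ν : Fin r →₀ ℕ // ν ∈ Finset.finsuppAntidiag Finset.univ (d i)}
  have hT : ∀ (i : ι) (ν : Fin r →₀ ℕ), ν ∈ Finset.finsuppAntidiag Finset.univ (d i) ↔
      ν.degree = d i := by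
    intro i ν
    rw [Finset.mem_finsuppAntidiag]
    simp [Finsupp.degree_eq_sum]
  -- solutions for the monomials
  have hsol : ∀ t : T, ∃ A : Fin m → Fin r → ZMod p, ∀ i,
      mulL A (g i) = if i = t.1 then monomial t.2.1 1 else 0 := by
    intro t
    obtain ⟨A, hA⟩ := hh (fun i' => if i' = t.1 then monomial t.2.1 1 else 0) (by
      intro i'
      by_cases h : i' = t.1
      · subst h
        simp only [if_true]
        exact isHomogeneous_monomial _ ((hT _ _).mp t.2.2)
      · simp only [h, if_false]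
        exact isHomogeneous_zero _ _ _)
    exact ⟨A, hA⟩
  choose A hA using hsol
  -- the lifts
  let A' : T → Fin m → Fin r → ℤ := fun t j l => ((A t j l).val : ℤ)
  let g' : ι → Fin m → MvPolynomial (Fin r) ℤ := fun i j => lft (g i j)
  have hA' : ∀ t i, map (Int.castRingHom (ZMod p)) (mulL (A' t) (g' i)) =
      if i = t.1 then monomial t.2.1 1 else 0 := by
    intro t i
    rw [mulL_map, ← hA t i]
    congr 1
    · funext j l
      simp [A']
    · funext j
      exact map_lft _
  let N : Matrix T T ℤ := fun t t' => (mulL (A' t) (g' t'.1)).coeff t'.2.1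
  have hN : N.map (Int.castRingHom (ZMod p)) = 1 := by
    ext t t'
    have h1 := congrArg (coeff t'.2.1) (hA' t t'.1)
    rw [coeff_map] at h1
    rw [Matrix.map_apply, Matrix.one_apply]
    show (Int.castRingHom (ZMod p)) ((mulL (A' t) (g' t'.1)).coeff t'.2.1) = _
    rw [h1]
    obtain ⟨i, ν, hν⟩ := t
    obtain ⟨i', ν', hν'⟩ := t'
    by_cases hi : i' = i
    · subst hi
      simp only [if_true, coeff_monomial]
      by_cases hνν : ν = ν'
      · subst hνν
        simp
      · have : (⟨i', ⟨ν, hν⟩⟩ : T) ≠ ⟨i', ⟨ν', hν'⟩⟩ := by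
          intro he
          apply hνν
          have := Sigma.mk.inj he
          simpa using this.2
        simp [hνν, this]
    · have : (⟨i, ⟨ν, hν⟩⟩ : T) ≠ ⟨i', ⟨ν', hν'⟩⟩ := by
        intro he
        exact hi (Sigma.mk.inj he).1.symm
      simp [hi, this]
  have hdet : N.det ≠ 0 := by
    intro h0
    have h1 := congrArg (Int.castRingHom (ZMod p)) h0
    rw [RingHom.map_det, RingHom.mapMatrix_apply, hN, Matrix.det_one, map_zero] at h1
    exact one_ne_zero h1
  -- over `E`
  let NE : Matrix T T E := N.map (Int.castRingHom E)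
  have hdetE : IsUnit NE.det := by
    rw [isUnit_iff_ne_zero]
    have h1 : NE.det = ((N.det : ℤ) : E) := by
      have := (Int.castRingHom E).map_det N
      rw [RingHom.mapMatrix_apply] at this
      rw [← this]
      rfl
    rw [h1]
    exact_mod_cast hdet
  refine ⟨fun i j => map (Int.castRingHom E) (g' i j), fun i j => (lft_hom (hg i j)).map _, ?_⟩
  intro h hhom
  let w : T → E := fun t => (h t.1).coeff t.2.1
  let b : T → E := Matrix.vecMul w NE⁻¹
  have hb : Matrix.vecMul b NE = w := by
    rw [Matrix.vecMul_vecMul, Matrix.nonsing_inv_mul _ hdetE, Matrix.vecMul_one]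
  refine ⟨fun j l => ∑ t, b t * (A' t j l : E), fun i => ?_⟩
  have h1 : ∑ j, (∑ l, C (∑ t, b t * (A' t j l : E)) * X l) * map (Int.castRingHom E) (g' i j) =
      ∑ t, C (b t) * map (Int.castRingHom E) (mulL (A' t) (g' i)) := by
    have h2 := mulL_sum (S := E) Finset.univ b (fun t j l => (A' t j l : E))
      (fun j => map (Int.castRingHom E) (g' i j))
    unfold mulL at h2
    rw [h2]
    refine Finset.sum_congr rfl fun t _ => ?_
    congr 1
    have h3 := mulL_map (Int.castRingHom E) (A' t) (g' i)
    rw [h3]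
    rfl
  rw [h1]
  ext ν
  rw [coeff_sum]
  simp only [coeff_C_mul, coeff_map]
  by_cases hν : ν ∈ Finset.finsuppAntidiag Finset.univ (d i)
  · have h2 := congrFun hb ⟨i, ⟨ν, hν⟩⟩
    have h3 : w ⟨i, ⟨ν, hν⟩⟩ = coeff ν (h i) := rfl
    rw [← h3, ← h2]
    rfl
  · have hdeg : ν.degree ≠ d i := fun h => hν ((hT i ν).mpr h)
    have h2 : coeff ν (h i) = 0 := (hhom i).coeff_eq_zero hdeg
    rw [h2]
    refine Finset.sum_eq_zero fun t _ => ?_
    have h3 : (mulL (A' t) (g' i)).IsHomogeneous (d i) :=
      mulL_hom (hd i) _ _ fun j => lft_hom (hg i j)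
    rw [h3.coeff_eq_zero hdeg]
    simp

end Lift

end Pool.Agent.Work.PDM
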