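import Mathlib
import Pool.Agent.Work.MP_b62148_ag.DM.ExistD
import Pool.Agent.Work.MP_b62148_ag.DM.FiniteD
import Pool.Agent.Work.MP_b62148_ag.DM.Lift
import Pool.Agent.Work.MP_b62148_ag.DM.Convex

/-!
The sharp existence theorem for linear spaces in intersections of hypersurfaces (Debarre and
Manivel): forms `G i` of degrees `d i` in at least `r + m` variables vanish on a common linear
subspace of dimension `r` as soon as `r + c ≤ m + 1` and `∑ (r + d i - 1).choose (d i) ≤ r * m`.
-/

namespace Pool.Agent.Work.PDM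

open MvPolynomial

/-- the existence theorem -/
theorem exists_space_sharp {E : Type*} [Field E] [CharZero E] [IsAlgClosed E] {σ : Type*}
    [Fintype σ] {ι : Type*} [Fintype ι] (d : ι → ℕ) (hd : ∀ i, 1 ≤ d i) (G : ι → MvPolynomial σ E)
    (hG : ∀ i, (G i).IsHomogeneous (d i)) (r m : ℕ)
    (h1 : r + Fintype.card ι ≤ m + 1) (h2 : ∑ i, (r + d i - 1).choose (d i) ≤ r * m)
    (hcard : r + m ≤ Fintype.card σ) :
    ∃ e : Fin r → σ → E, LinearIndependent E e ∧
      ∀ i, ∀ s : Fin r → E, aeval (fun l => ∑ j, s j * e j l) (G i) = 0 := by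
  obtain ⟨p, hp1, hp2⟩ := Nat.exists_infinite_primes (r * 2 ^ r + 2)
  have : Fact p.Prime := ⟨hp2⟩
  exact exists_space_of_peel d G hG r m (peel_lift p d r m (peel_finite p d hd r m
    (fun ρ hρ hρr => convex_bound d hd r m h1 h2 ρ hρ hρr) (by omega)) E) hcard

end Pool.Agent.Work.PDM
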