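import Mathlib

/-!
# [D2a] the number of functionals of rank `ρ`  (helper18)

`M` is a finite set of monomials in `r` variables (`w` = exponents), `U` the monomials of degree
one less, `up l u` the product of `u` with the variable `l`.  For `φ : M → F` the row `l` of `φ` is
`u ↦ φ (up l u)`.  If the rows of `φ` span a space of dimension `ρ`, then `φ` is determined by a
set `P` of `ρ` pivot rows, the coefficients of the other rows, and the values of `φ` on the
monomials in the variables of `P`.
-/

namespace Pool.Agent.Work.PDM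

open Classical Module

section

variable {r : ℕ} {M U : Type*} [Fintype M] [Fintype U] {F : Type*} [Field F] [Fintype F]

omit [Fintype M] [Fintype U] [Fintype F] in
/-- values on the monomials in the variables of `P` determine `φ` -/
theorem eq_of_elim (w : M → Fin r → ℕ) (w' : U → Fin r → ℕ) (up : Fin r → U → M)
    (hup : ∀ l u k, w (up l u) k = w' u k + if k = l then 1 else 0)
    (hdown : ∀ x l, 0 < w x l → ∃ u, up l u = x) (P : Finset (Fin r))
    (a : {l // l ∉ P} → {k // k ∈ P} → F) (φ ψ : M → F)
    (hφ : ∀ (l : {l // l ∉ P}) u, φ (up l u) = ∑ k : {k // k ∈ P}, a l k * φ (up k u))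
    (hψ : ∀ (l : {l // l ∉ P}) u, ψ (up l u) = ∑ k : {k // k ∈ P}, a l k * ψ (up k u))
    (h : ∀ x, (∀ l ∉ P, w x l = 0) → φ x = ψ x) : φ = ψ := by
  have key : ∀ n, ∀ x, ∑ l ∈ Finset.univ \ P, w x l = n → φ x = ψ x := by
    intro n
    induction n with
    | zero =>
      intro x hx
      refine h x fun l hl => ?_
      exact Finset.sum_eq_zero_iff.mp hx l (by simp [hl])
    | succ n ih =>
      intro x hx
      obtain ⟨l, hl, hpos⟩ : ∃ l ∈ Finset.univ \ P, 0 < w x l := by
        by_contra hcon
        push Not at hcon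
        have : ∑ l ∈ Finset.univ \ P, w x l = 0 :=
          Finset.sum_eq_zero fun l hl => Nat.le_zero.mp (hcon l hl)
        omega
      have hlP : l ∉ P := (Finset.mem_sdiff.mp hl).2
      obtain ⟨u, rfl⟩ := hdown x l hpos
      have h1 := hφ ⟨l, hlP⟩ u
      have h2 := hψ ⟨l, hlP⟩ u
      simp only at h1 h2
      rw [h1, h2]
      refine Finset.sum_congr rfl fun k _ => ?_
      rw [ih (up k u) ?_]
      -- the degree outside `P`
      have h3 : ∑ j ∈ Finset.univ \ P, w (up l u) j = ∑ j ∈ Finset.univ \ P, w' u j + 1 := by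
        rw [Finset.sum_congr rfl fun j _ => hup l u j, Finset.sum_add_distrib,
          Finset.sum_ite_eq' (Finset.univ \ P) l, if_pos hl]
      have h4 : ∑ j ∈ Finset.univ \ P, w (up k u) j = ∑ j ∈ Finset.univ \ P, w' u j := by
        rw [Finset.sum_congr rfl fun j _ => hup k u j, Finset.sum_add_distrib,
          Finset.sum_ite_eq' (Finset.univ \ P) (k : Fin r),
          if_neg (by simp [k.2]), Nat.add_zero]
      omega
  exact funext fun x => key _ x rfl

/-- for given pivots and coefficients -/
theorem card_elim_le (w : M → Fin r → ℕ) (w' : U → Fin r → ℕ) (up : Fin r → U → M)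
    (hup : ∀ l u k, w (up l u) k = w' u k + if k = l then 1 else 0)
    (hdown : ∀ x l, 0 < w x l → ∃ u, up l u = x) (P : Finset (Fin r))
    (a : {l // l ∉ P} → {k // k ∈ P} → F) :
    (Finset.univ.filter fun φ : M → F => ∀ (l : {l // l ∉ P}) u,
      φ (up l u) = ∑ k : {k // k ∈ P}, a l k * φ (up k u)).card ≤
      Fintype.card F ^ Fintype.card {x : M // ∀ l ∉ P, w x l = 0} := by
  have h1 : Fintype.card ({x : M // ∀ l ∉ P, w x l = 0} → F) =
      Fintype.card F ^ Fintype.card {x : M // ∀ l ∉ P, w x l = 0} := by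
    rw [Fintype.card_fun]
  rw [← h1, ← Finset.card_univ]
  refine Finset.card_le_card_of_injOn (fun φ x => φ x.1) (fun φ _ => Finset.mem_univ _) ?_
  intro φ hφ ψ hψ heq
  have hφ' := (Finset.mem_filter.mp (Finset.mem_coe.mp hφ)).2
  have hψ' := (Finset.mem_filter.mp (Finset.mem_coe.mp hψ)).2
  exact eq_of_elim w w' up hup hdown P a φ ψ hφ' hψ' fun x hx => congrFun heq ⟨x, hx⟩

omit [Fintype U] [Fintype F] in
/-- pivots -/
theorem exists_pivots (v : Fin r → U → F) : ∃ P : Finset (Fin r),
    P.card = finrank F (Submodule.span F (Set.range v)) ∧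
    ∃ a : {l // l ∉ P} → {k // k ∈ P} → F, ∀ l : {l // l ∉ P},
      v l = ∑ k : {k // k ∈ P}, a l k • v k := by
  obtain ⟨κ, e, hinj, hspan, hli⟩ := exists_linearIndependent' F v
  have : Fintype κ := Fintype.ofInjective e hinj
  refine ⟨Finset.univ.image e, ?_, ?_⟩
  · rw [Finset.card_image_of_injective _ hinj, Finset.card_univ, ← hspan,
      finrank_span_eq_card hli]
  · set P := Finset.univ.image e with hP
    have h1 : ∀ l : {l // l ∉ P}, ∃ b : {k // k ∈ P} → F, ∑ k, b k • v k = v l := by
      intro l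
      rw [← Submodule.mem_span_range_iff_exists_fun F (v := fun k : {k // k ∈ P} => v k)]
      have h2 : v l ∈ Submodule.span F (Set.range v) :=
        Submodule.subset_span (Set.mem_range_self _)
      rw [← hspan] at h2
      refine Submodule.span_mono ?_ h2
      rintro _ ⟨i, rfl⟩
      exact ⟨⟨e i, by simp [hP]⟩, rfl⟩
    choose a ha using h1
    exact ⟨a, fun l => (ha l).symm⟩

/-- **[D2a]** -/
theorem card_rank_le (w : M → Fin r → ℕ) (w' : U → Fin r → ℕ) (up : Fin r → U → M)
    (hup : ∀ l u k, w (up l u) k = w' u k + if k = l then 1 else 0)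
    (hdown : ∀ x l, 0 < w x l → ∃ u, up l u = x) (B : ℕ → ℕ)
    (hB : ∀ P : Finset (Fin r), Fintype.card {x : M // ∀ l ∉ P, w x l = 0} ≤ B P.card) (ρ : ℕ) :
    (Finset.univ.filter fun φ : M → F =>
      finrank F (Submodule.span F (Set.range fun l u => φ (up l u))) = ρ).card ≤
      2 ^ r * Fintype.card F ^ (ρ * (r - ρ) + B ρ) := by
  have hq : 0 < Fintype.card F := Fintype.card_pos
  set PS : Finset (Finset (Fin r)) := Finset.univ.filter fun P => P.card = ρ with hPS
  have hsub : (Finset.univ.filter fun φ : M → F =>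
      finrank F (Submodule.span F (Set.range fun l u => φ (up l u))) = ρ) ⊆
      PS.biUnion fun P => (Finset.univ : Finset ({l // l ∉ P} → {k // k ∈ P} → F)).biUnion
        fun a => Finset.univ.filter fun φ : M → F => ∀ (l : {l // l ∉ P}) u,
          φ (up l u) = ∑ k : {k // k ∈ P}, a l k * φ (up k u) := by
    intro φ hφ
    obtain ⟨P, hPc, a, ha⟩ := exists_pivots (fun l u => φ (up l u))
    rw [(Finset.mem_filter.mp hφ).2] at hPc
    refine Finset.mem_biUnion.mpr ⟨P, Finset.mem_filter.mpr ⟨Finset.mem_univ _, hPc⟩,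
      Finset.mem_biUnion.mpr ⟨a, Finset.mem_univ _, Finset.mem_filter.mpr ⟨Finset.mem_univ _,
        fun l u => ?_⟩⟩⟩
    have h1 := congrFun (ha l) u
    rw [Finset.sum_apply] at h1
    exact h1
  refine (Finset.card_le_card hsub).trans (Finset.card_biUnion_le.trans ?_)
  have h1 : ∀ P ∈ PS, ((Finset.univ : Finset ({l // l ∉ P} → {k // k ∈ P} → F)).biUnion
        fun a => Finset.univ.filter fun φ : M → F => ∀ (l : {l // l ∉ P}) u,
          φ (up l u) = ∑ k : {k // k ∈ P}, a l k * φ (up k u)).card ≤
      Fintype.card F ^ (ρ * (r - ρ) + B ρ) := by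
    intro P hP
    have hPc : P.card = ρ := (Finset.mem_filter.mp hP).2
    refine (Finset.card_biUnion_le_card_mul _ _ (Fintype.card F ^ B ρ) fun a _ => ?_).trans ?_
    · refine (card_elim_le w w' up hup hdown P a).trans (Nat.pow_le_pow_right hq ?_)
      rw [← hPc]
      exact hB P
    · have h2 : Fintype.card {k // k ∈ P} = ρ := by
        rw [Fintype.card_coe, hPc]
      have h3 : Fintype.card {l // l ∉ P} = r - ρ := by
        rw [Fintype.card_subtype_compl, Fintype.card_fin, Fintype.card_coe, hPc]
      rw [Finset.card_univ, Fintype.card_fun, Fintype.card_fun, h2, h3, ← pow_mul, ← pow_add]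
  refine (Finset.sum_le_sum h1).trans ?_
  rw [Finset.sum_const, smul_eq_mul]
  refine Nat.mul_le_mul_right _ ?_
  calc PS.card ≤ (Finset.univ : Finset (Finset (Fin r))).card := Finset.card_le_card (Finset.subset_univ _)
    _ = 2 ^ r := by rw [Finset.card_univ, Fintype.card_finset, Fintype.card_fin]

end

end Pool.Agent.Work.PDM
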